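import Pool.Agent.ZTO.Stmts

/-!
CLM: elements which centralize the top of the chain.
-/

set_option autoImplicit false

namespace Pool.Agent.ZTO.H23

open Pool.Agent.ZTO

theorem com_aux {Q : Type} [Group Q] (a s a' s' : Q) (h1 : Commute a a') (h2 : Commute a s')
    (h3 : Commute a' s) (h4 : Commute a s) (h5 : Commute a' s') :
    (a * s) * (a' * s') * (a * s)⁻¹ * (a' * s')⁻¹ = s * s' * s⁻¹ * s'⁻¹ := by
  have e1 : (a * s) * (a' * s') = a * a' * (s * s') := by
    calc (a * s) * (a' * s') = a * (s * a') * s' := by group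
      _ = a * (a' * s) * s' := by rw [h3.eq]
      _ = a * a' * (s * s') := by group
  have e2 : (a' * s') * (a * s) = a * a' * (s' * s) := by
    calc (a' * s') * (a * s) = a' * (s' * a) * s := by group
      _ = a' * (a * s') * s := by rw [h2.eq]
      _ = (a' * a) * (s' * s) := by group
      _ = a * a' * (s' * s) := by rw [h1.eq]
  have e3 : Commute (a * a') (s * s') := by
    have k1 : Commute a (s * s') := h4.mul_right h2
    have k2 : Commute a' (s * s') := h3.mul_right h5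
    exact k1.mul_left k2
  have e4 : (a * s) * (a' * s') * (a * s)⁻¹ * (a' * s')⁻¹ =
      ((a * s) * (a' * s')) * ((a' * s') * (a * s))⁻¹ := by group
  have e5 : s * s' * s⁻¹ * s'⁻¹ = (s * s') * (s' * s)⁻¹ := by group
  rw [e4, e5, e1, e2]
  have e6 : a * a' * (s * s') * (a * a' * (s' * s))⁻¹ =
      (a * a') * (s * s') * (s' * s)⁻¹ * (a * a')⁻¹ := by group
  rw [e6, e3.eq]
  have e7 : Commute (a * a') (s' * s) := by
    have k1 : Commute a (s' * s) := h2.mul_right h4
    have k2 : Commute a' (s' * s) := h5.mul_right h3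
    exact k1.mul_left k2
  have e8 : (a * a') * (s' * s)⁻¹ = (s' * s)⁻¹ * (a * a') := e7.inv_right.eq
  calc (s * s') * (a * a') * (s' * s)⁻¹ * (a * a')⁻¹
      = (s * s') * ((a * a') * (s' * s)⁻¹) * (a * a')⁻¹ := by group
    _ = (s * s') * ((s' * s)⁻¹ * (a * a')) * (a * a')⁻¹ := by rw [e8]
    _ = (s * s') * (s' * s)⁻¹ := by group

theorem clm (chr : ChrStmt) : ClmStmt := by
  intro G _ p ψ n A hC R hR hAA g g' hg hg'
  obtain ⟨_, c2, c3⟩ := chr G p ψ n A hC
  haveI : (A (n - R)).Normal := hC.nrm _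
  set B : Subgroup G := A (n - R) with hB
  obtain ⟨a, ha, h, rfl⟩ := c3 R g
  obtain ⟨a', ha', h', rfl⟩ := c3 R g'
  set s : G := (⇑ψ)^[R] h with hs
  set s' : G := (⇑ψ)^[R] h' with hs'
  have key : ∀ x y : G, x * y * x⁻¹ * y⁻¹ ∈ B →
      Commute (QuotientGroup.mk' B x) (QuotientGroup.mk' B y) := by
    intro x y hxy
    have h1 : QuotientGroup.mk' B (x * y * x⁻¹ * y⁻¹) = 1 := (QuotientGroup.eq_one_iff _).2 hxy
    have h2 : QuotientGroup.mk' B x * QuotientGroup.mk' B y * (QuotientGroup.mk' B x)⁻¹ *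
        (QuotientGroup.mk' B y)⁻¹ = 1 := by
      rw [← h1]; simp only [map_mul, map_inv]
    have h3 := mul_inv_eq_one.1 h2
    exact mul_inv_eq_iff_eq_mul.1 h3
  have kA : ∀ c ∈ A n, ∀ d ∈ A n, Commute (QuotientGroup.mk' B c) (QuotientGroup.mk' B d) :=
    fun c hc d hd => key c d (hAA c hc d hd)
  have kg : ∀ c ∈ A n, Commute (QuotientGroup.mk' B (a * s)) (QuotientGroup.mk' B c) :=
    fun c hc => key _ c (hg c hc)
  have kg' : ∀ c ∈ A n, Commute (QuotientGroup.mk' B (a' * s')) (QuotientGroup.mk' B c) :=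
    fun c hc => key _ c (hg' c hc)
  have ks : ∀ c ∈ A n, Commute (QuotientGroup.mk' B s) (QuotientGroup.mk' B c) := by
    intro c hc
    have e : QuotientGroup.mk' B s = (QuotientGroup.mk' B a)⁻¹ * QuotientGroup.mk' B (a * s) := by
      rw [map_mul]; group
    rw [e]
    exact (kA a ha c hc).inv_left.mul_left (kg c hc)
  have ks' : ∀ c ∈ A n, Commute (QuotientGroup.mk' B s') (QuotientGroup.mk' B c) := by
    intro c hc
    have e : QuotientGroup.mk' B s' = (QuotientGroup.mk' B a')⁻¹ * QuotientGroup.mk' B (a' * s') := by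
      rw [map_mul]; group
    rw [e]
    exact (kA a' ha' c hc).inv_left.mul_left (kg' c hc)
  have main := com_aux (QuotientGroup.mk' B a) (QuotientGroup.mk' B s) (QuotientGroup.mk' B a')
    (QuotientGroup.mk' B s') (kA a ha a' ha') (ks' a ha).symm (ks a' ha').symm (ks a ha).symm
    (ks' a' ha').symm
  have e1 : QuotientGroup.mk' B ((a * s) * (a' * s') * (a * s)⁻¹ * (a' * s')⁻¹ *
      (s * s' * s⁻¹ * s'⁻¹)⁻¹) = 1 := by
    have e2 : QuotientGroup.mk' B ((a * s) * (a' * s') * (a * s)⁻¹ * (a' * s')⁻¹) =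
        QuotientGroup.mk' B (s * s' * s⁻¹ * s'⁻¹) := by
      simp only [map_mul, map_inv] at main ⊢
      exact main
    rw [map_mul, e2, map_inv, mul_inv_cancel]
  have e3 : (a * s) * (a' * s') * (a * s)⁻¹ * (a' * s')⁻¹ * (s * s' * s⁻¹ * s'⁻¹)⁻¹ ∈ B :=
    (QuotientGroup.eq_one_iff _).1 e1
  obtain ⟨b, _, hb⟩ := (c2 R hR _).1 e3
  refine ⟨b * (h * h' * h⁻¹ * h'⁻¹), ?_⟩
  have e4 : (⇑ψ)^[R] (h * h' * h⁻¹ * h'⁻¹) = s * s' * s⁻¹ * s'⁻¹ := by
    simp only [iterate_map_mul, iterate_map_inv, hs, hs']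
  rw [iterate_map_mul, e4, ← hb]
  group

end Pool.Agent.ZTO.H23
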